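import Pool.Agent.K6.H49.RT.Red

/-!
# The response time variability problem is NP-hard in the strong sense

Definitions: `Pool/Agent/K6/H49/RT/Defs.lean` (the problem, with the models numbered from `0`) and
`Pool/Agent/NPC/Defs.lean` (polynomial time, `NP`, NP-hardness).

The reduction is from 3SAT, through the existence of offsets `c i` such that the classes
`c i mod b i` are pairwise disjoint (periodic maintenance scheduling), for which the module
`Pool/Agent/H741R2/PWRed.lean` has a reduction that produces small periods `b i ≤ β`.  Choose `D`
polynomial in the number and the size of the periods (and much larger than both), let `⌊D / b i⌋`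
be the demand of the model `i`, add models with demand `1` until the demands add up to `D`, and let
the bound be `R = N β ^ 2`, where `N` bounds the number of the periods.

* Given offsets, put the model `i` at the positions `c i + k (b i)`, `0 ≤ k < ⌊D / b i⌋`; all its
  distances but the one around the cycle are equal to `b i`, and the response time variability of
  the model `i` is less than `β ^ 2`.
* Given a sequence whose response time variability is at most `R`, the sum over all `i` and `j` of
  the `(t i j - b i) ^ 2` is at most `4 R`, so that at most `4 R` distances `t i j` are different
  from `b i`.  As `D` is large, there is an interval of the length `β + 4 R + β ^ 2` in which none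
  of these distances starts.  In this interval every model `i` occurs periodically with the period
  `b i`, and as its length is more than `lcm (b i, b j)`, disjointness modulo `gcd (b i, b j)`
  follows.
-/

namespace Pool.Agent.Results.MP_beca7c_lc.StrongNPHard

open Pool.Agent.NPC Pool.Agent.K6.H49.RT

/-- **The response time variability problem is NP-hard in the strong sense**: its decision version
is NP-hard if the demands are written in unary, and (with the demands in binary) every language in
NP can be reduced to it in polynomial time such that all the instances produced have `D ≤ 2 n`. -/
theorem result :
    NPHardP RTVUnary ∧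
    ∀ L : Set (List Bool), InNP L → ∃ f : List Bool → List Bool, PolyTime f ∧
      ∀ x, ∃ (d : List ℕ) (B : ℚ), f x = bits (d, B) ∧ Valid d ∧ d.sum ≤ 2 * d.length ∧
        (x ∈ L ↔ RTV (d, B)) := by
  refine ⟨hardI_rtvUnary.toNPHardP, fun L hL => ?_⟩
  obtain ⟨f, hf, hpr, hfL⟩ := hardPr_rtv L hL
  exact ⟨fun x => bits (f x), PC.toPolyTime hf, fun x =>
    ⟨(f x).1, (f x).2, rfl, (hpr x).1, (hpr x).2, hfL x⟩⟩

end Pool.Agent.Results.MP_beca7c_lc.StrongNPHard
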